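import Pool.Agent.Helper33.HM.Iter
import Pool.Agent.Helper33.HM.RDefs

/-!
# Restrictions and glueings of conditions
-/

set_option autoImplicit false
set_option linter.unusedSectionVars false

namespace Pool.Agent.Helper33.HM

universe u

namespace Raw

variable {I : Type u} [LinearOrder I]

theorem h84_res_of_lt {p : Raw I} {i : I} (h : p.lt i) : p.res i = p := by
  cases p with
  | one => rfl
  | cons p j s m f v => rw [res, if_pos (show j < i from h)]

theorem h84_res_res {i j : I} (h : i ≤ j) (p : Raw I) : (p.res j).res i = p.res i := by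
  induction p with
  | one => rfl
  | cons p k s m f v ih _ =>
    by_cases hk : k < j
    · rw [res, if_pos hk]
    · rw [res, if_neg hk, ih, res, if_neg (fun hki => hk (lt_of_lt_of_le hki h))]

theorem h84_entry_res {i j : I} (p : Raw I) (hp : p.WF) {q : Raw I} {s : List ℕ} {m : ℕ}
    {f : ℕ → ℕ → ℕ → Raw I} {v : ℕ → ℕ → ℕ → ℕ} :
    Entry (p.res i) j q s m f v ↔ j < i ∧ Entry p j q s m f v := by
  induction p with
  | one => exact ⟨fun h => h.elim, fun h => h.2.elim⟩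
  | cons p k s' m' f' v' ih _ =>
    by_cases hk : k < i
    · rw [res, if_pos hk]
      constructor
      · intro h
        exact ⟨(Entry.facts hp h).2.2.2 i hk, h⟩
      · intro h
        exact h.2
    · rw [res, if_neg hk, ih hp.1]
      constructor
      · rintro ⟨h1, h2⟩
        exact ⟨h1, Or.inr h2⟩
      · rintro ⟨h1, h2⟩
        rcases h2 with ⟨rfl, _⟩ | h2
        · exact absurd h1 hk
        · exact ⟨h1, h2⟩

theorem h84_entry_eq_res {i : I} (p : Raw I) (hp : p.WF) {q : Raw I} {s : List ℕ} {m : ℕ}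
    {f : ℕ → ℕ → ℕ → Raw I} {v : ℕ → ℕ → ℕ → ℕ} (h : Entry p i q s m f v) : q = p.res i := by
  induction p with
  | one => exact h.elim
  | cons p k s' m' f' v' ih _ =>
    rcases h with ⟨rfl, rfl, rfl, rfl, rfl, rfl⟩ | h
    · rw [res, if_neg (lt_irrefl _), h84_res_of_lt hp.2.1]
    · have hik : i < k := (Entry.facts hp.1 h).2.2.2 k hp.2.1
      rw [res, if_neg (not_lt.2 hik.le)]
      exact ih hp.1 h

theorem h84_entry_glue {i : I} {q : Raw I} (hq : q.WF) (hqi : q.lt i) (p : Raw I) (hp : p.WF)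
    {j : I} {p' : Raw I} {s : List ℕ} {m : ℕ} {f : ℕ → ℕ → ℕ → Raw I} {v : ℕ → ℕ → ℕ → ℕ} :
    Entry (glue i q p) j p' s m f v ↔
      (j < i ∧ Entry q j p' s m f v) ∨
        (i ≤ j ∧ ∃ p'', Entry p j p'' s m f v ∧ p' = glue i q p'') := by
  induction p with
  | one =>
    constructor
    · intro h
      exact Or.inl ⟨(Entry.facts hq h).2.2.2 i hqi, h⟩
    · rintro (h | ⟨_, p'', h, _⟩)
      · exact h.2
      · exact h.elim
  | cons p k s' m' f' v' ih _ =>
    by_cases hk : k < i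
    · rw [glue, if_pos hk]
      constructor
      · intro h
        exact Or.inl ⟨(Entry.facts hq h).2.2.2 i hqi, h⟩
      · rintro (h | ⟨h1, p'', h, _⟩)
        · exact h.2
        · exact absurd ((Entry.facts hp h).2.2.2 i hk) (not_lt.2 h1)
    · rw [glue, if_neg hk]
      constructor
      · rintro (⟨rfl, rfl, rfl, rfl, rfl, rfl⟩ | h)
        · exact Or.inr ⟨not_lt.1 hk, p, Or.inl ⟨rfl, rfl, rfl, rfl, rfl, rfl⟩, rfl⟩
        · rcases (ih hp.1).1 h with h | ⟨h1, p'', h2, h3⟩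
          · exact Or.inl h
          · exact Or.inr ⟨h1, p'', Or.inr h2, h3⟩
      · rintro (h | ⟨h1, p'', h2, h3⟩)
        · exact Or.inr ((ih hp.1).2 (Or.inl h))
        · rcases h2 with ⟨rfl, rfl, rfl, rfl, rfl, rfl⟩ | h2
          · exact Or.inl ⟨rfl, h3, rfl, rfl, rfl, rfl⟩
          · exact Or.inr ((ih hp.1).2 (Or.inr ⟨h1, p'', h2, h3⟩))

theorem h84_res_glue {i : I} {q : Raw I} (hqi : q.lt i) (p : Raw I) :
    (glue i q p).res i = q := by
  induction p with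
  | one => exact h84_res_of_lt hqi
  | cons p k s m f v ih _ =>
    by_cases hk : k < i
    · rw [glue, if_pos hk, h84_res_of_lt hqi]
    · rw [glue, if_neg hk, res, if_neg hk, ih]

end Raw

namespace Cond

variable {I : Type u} [LinearOrder I] [WellFoundedLT I]

theorem lt_mono {p : Cond I} {i j : I} (h : i ≤ j) (hp : p.lt i) : p.lt j :=
  Raw.lt_mono h hp

theorem res_lt (p : Cond I) (i : I) : (p.res i).lt i := (Raw.res_facts p.1 p.2 i).2.1

theorem ent_facts {p q : Cond I} {i : I} {s : List ℕ} {m : ℕ} {f : ℕ → ℕ → ℕ → Cond I}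
    {v : ℕ → ℕ → ℕ → ℕ} (h : Ent p i q s m f v) :
    q = p.res i ∧ q.lt i ∧ (∀ l n k, (f l n k).lt i) ∧ ∀ j, p.lt j → i < j := by
  have hf := Raw.Entry.facts p.2 h
  exact ⟨Subtype.ext (Raw.h84_entry_eq_res p.1 p.2 h), hf.2.1, fun l n k => (hf.2.2.1 l n k).2,
    hf.2.2.2⟩

theorem ent_unique {p q q' : Cond I} {i : I} {s s' : List ℕ} {m m' : ℕ}
    {f f' : ℕ → ℕ → ℕ → Cond I} {v v' : ℕ → ℕ → ℕ → ℕ} (h : Ent p i q s m f v)
    (h' : Ent p i q' s' m' f' v') : q = q' ∧ s = s' ∧ m = m' ∧ f = f' ∧ v = v' := by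
  obtain ⟨h1, h2, h3, h4, h5⟩ := Raw.Entry.unique p.2 h h'
  refine ⟨Subtype.ext h1, h2, h3, ?_, h5⟩
  funext l n k
  exact Subtype.ext (congrFun (congrFun (congrFun h4 l) n) k)

theorem ent_res {p q : Cond I} {i j : I} {s : List ℕ} {m : ℕ} {f : ℕ → ℕ → ℕ → Cond I}
    {v : ℕ → ℕ → ℕ → ℕ} : Ent (p.res i) j q s m f v ↔ j < i ∧ Ent p j q s m f v :=
  Raw.h84_entry_res p.1 p.2

theorem le_res (p : Cond I) (i : I) : p ≤ p.res i := by
  rw [le_iff]
  intro j q' t m' g w he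
  exact ⟨q', t, m', g, w, (ent_res.1 he).2, List.prefix_rfl, fun l hl => ⟨l, hl, rfl, rfl⟩,
    fun n hn hn' => absurd hn (not_lt.2 hn')⟩

theorem res_mono {p q : Cond I} (h : p ≤ q) (i : I) : p.res i ≤ q.res i := by
  rw [le_iff]
  intro j q' t m' g w he
  obtain ⟨hji, he'⟩ := ent_res.1 he
  obtain ⟨p', s, m, f, v, h1, h2⟩ := le_iff.1 h j q' t m' g w he'
  exact ⟨p', s, m, f, v, ent_res.2 ⟨hji, h1⟩, h2⟩

theorem res_of_lt {p : Cond I} {i : I} (h : p.lt i) : p.res i = p :=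
  Subtype.ext (Raw.h84_res_of_lt h)

theorem res_res {p : Cond I} {i j : I} (h : i ≤ j) : (p.res j).res i = p.res i :=
  Subtype.ext (Raw.h84_res_res h p.1)

theorem glue_le_left (i : I) (q p : Cond I) (hq : q.lt i) : glue i q p hq ≤ q := by
  rw [le_iff]
  intro j q' t m' g w he
  have he' : Ent (glue i q p hq) j q' t m' g w :=
    (Raw.h84_entry_glue q.2 hq p.1 p.2).2 (Or.inl ⟨(ent_facts he).2.2.2 i hq, he⟩)
  exact ⟨q', t, m', g, w, he', List.prefix_rfl, fun l hl => ⟨l, hl, rfl, rfl⟩,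
    fun n hn hn' => absurd hn (not_lt.2 hn')⟩

theorem glue_le_right (i : I) (q p : Cond I) (hq : q.lt i) (h : q ≤ p.res i) :
    glue i q p hq ≤ p := by
  rw [le_iff]
  intro j q' t m' g w he
  rcases lt_or_ge j i with hji | hij
  · obtain ⟨p', s, m, f, v, h1, h2⟩ := le_iff.1 h j q' t m' g w (ent_res.2 ⟨hji, he⟩)
    exact ⟨p', s, m, f, v,
      (Raw.h84_entry_glue q.2 hq p.1 p.2).2 (Or.inl ⟨hji, h1⟩), h2⟩
  · refine ⟨glue i q q' hq, t, m', g, w, ?_, List.prefix_rfl, fun l hl => ⟨l, hl, rfl, rfl⟩,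
      fun n hn hn' => absurd hn (not_lt.2 hn')⟩
    exact (Raw.h84_entry_glue q.2 hq p.1 p.2).2 (Or.inr ⟨hij, q'.1, he, rfl⟩)

theorem res_glue (i : I) (q p : Cond I) (hq : q.lt i) : (glue i q p hq).res i = q :=
  Subtype.ext (Raw.h84_res_glue hq p.1)

theorem glue_lt (i : I) (q p : Cond I) (hq : q.lt i) {j : I} (hij : i ≤ j) (hp : p.lt j) :
    (glue i q p hq).lt j := (Raw.glue_facts i q.1 p.1 q.2 hq p.2).2 j hij hp

/-- The entries of a glued condition. -/
theorem h84_ent_glue {i : I} {q p : Cond I} {hq : q.lt i} {j : I} {p' : Cond I} {s : List ℕ}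
    {m : ℕ} {f : ℕ → ℕ → ℕ → Cond I} {v : ℕ → ℕ → ℕ → ℕ} :
    Ent (glue i q p hq) j p' s m f v ↔
      (j < i ∧ Ent q j p' s m f v) ∨
        (i ≤ j ∧ ∃ p'' : Cond I, Ent p j p'' s m f v ∧ p' = glue i q p'' hq) := by
  refine (Raw.h84_entry_glue q.2 hq p.1 p.2).trans (or_congr Iff.rfl (and_congr Iff.rfl ?_))
  constructor
  · rintro ⟨p'', h1, h2⟩
    exact ⟨⟨p'', (Raw.Entry.facts p.2 h1).1⟩, h1, Subtype.ext h2⟩
  · rintro ⟨p'', h1, h2⟩
    exact ⟨p''.1, h1, congrArg Subtype.val h2⟩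

end Cond

end Pool.Agent.Helper33.HM
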